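import Pool.Agent.H75C.NX.Classes

/-!
# `NEXP` is not contained in `P^NP` with few potential yes-queries, even with advice

For every `c` there is a language `L` in `NEXP` that is not in the following class `InPNPFew`: `L` is
decided in polynomial time with an oracle in `NP`, an advice string of at most `n ^ c + c` bits
(depending on the length `n` of the input only) and at most `2 ^ (n ^ c + c)` potential yes-queries.
A potential yes-query is an element of the oracle that the algorithm asks, among its first `r(n)`
queries, for some list of answers in which all answers `true` are correct (answers `false` may be
wrong). The number and the length of the queries are bounded by arbitrary polynomials.

Special cases (`few_of_len`, `few_of_mem`, `few_of_num` in the imported file): algorithms whose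
queries have length at most `n ^ c`, algorithms that remember at most `n ^ c` bits between two queries
(with polynomially many queries of polynomial length), and algorithms with at most `n ^ c` queries.
The last case is a theorem of Buhrman, Fortnow and Santhanam (2009; without advice Mocas 1996). The
definitions are those of the starting file `Pool.Agent.H660R2.NX.Defs`, where `S` is a set of input
lengths (here all lengths).

Proof. Suppose that all languages in `NEXP` are in the class. Let `K` be a universal set for
`NTIME(2^(n^(c+3)))`, decided by a machine `M` with the advice `a`. For a length `N` consider the table
of the potential yes-queries of `M` for all inputs `y` of length `N` and ALL advice strings `b` of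
length at most `N ^ c + c`, cut off at `2 ^ (N ^ c + c) + 1` queries for each pair. The number `T` of its
entries is computable in deterministic exponential time (the exponent depends on `M`). Hence the
language of the bits of `T`, with inputs of the much smaller length `l = N ^ (1/(c+4))`, is in `NEXP`,
and so is decided by a machine `M'` of the class with few advice bits: together with the census of
its yes-queries, `T` is determined by `O(l ^ c + l)` bits. A nondeterministic machine that knows these
bits can guess and certify all the yes-queries of `M'`, so it knows `T`; then it can guess and certify
all entries of the table of `M`, in time `2 ^ O(N^(c+1))`, whatever the polynomial bounds of `M` are.
So it can compute a string of bits that differs from the answers of `M` for every advice string `b`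
and every description of a problem of length about `N / 3`. This language is thus in `K` up to a
reduction of linear length which includes the few advice bits, and `M` decides it with the advice
`a N`: a contradiction.
-/

namespace Pool.Agent.Results.MP_92db0f_lc.FewYesQueries

open Pool.Agent.H660R2.NX Pool.Agent.H75C.NX

/-- **Theorem.** For every `c` some language in `NEXP` is not in `P^NP` with `n ^ c + c` bits of advice
and at most `2 ^ (n ^ c + c)` potential yes-queries. -/
theorem result (c : ℕ) : ∃ L : Set (List Bool), InNEXP L ∧ ¬ InPNPFew c Set.univ L := by
  obtain ⟨L, h1, h2, _⟩ := main c
  exact ⟨L, h1, h2⟩

end Pool.Agent.Results.MP_92db0f_lc.FewYesQueries
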