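import Pool.Agent.H75C.NX.Classes

/-!
# `NEXP` is not contained in `(NTIME(2^O(n^c)) ∩ EXP)` with `n^c` bits of advice

For every `c` there is a language `L` in `NEXP` that is not in `(NTIME(2^O(n^c)) ∩ EXP)/(n^c + c)`. In
particular `NEXP` is contained neither in `(P^NP ∩ NTIME(2^(n^c)))/n^c` nor in the class of the
predicates given by quantifiers over `n^c` bits in all, with arbitrary alternations, in front of an
`NP`-predicate, with `n^c` bits of advice. (Without `EXP`, nondeterministic time hierarchies are known
for sublinear advice only: Fortnow and Santhanam 2016.)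

The proof is the one sketched in `FewYesQueries`: the census counts, for all advice strings, the
inputs accepted with this advice string.
-/

namespace Pool.Agent.Results.MP_92db0f_lc.NtimeExpAdvice

open Pool.Agent.H660R2.NX Pool.Agent.H75C.NX

/-- **Theorem.** For every `c` some language in `NEXP` is not in
`(NTIME(2^O(n^c)) ∩ EXP)/(n^c + c)`. -/
theorem result (c : ℕ) : ∃ L : Set (List Bool), InNEXP L ∧ ¬ InNTExp c L := by
  obtain ⟨L, h1, _, _, _, _, h2⟩ := main c
  exact ⟨L, h1, h2⟩

end Pool.Agent.Results.MP_92db0f_lc.NtimeExpAdvice
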