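import Pool.Agent.H75C.RD.Class

/-!
# `NEXP` against exponential time with few rounds of parallel `NP`-queries

For every `c` there is a language `L` in `NEXP` that is not decided in time `2 ^ O(n ^ c)`, with
`n ^ c + c` bits of advice, by an algorithm that asks an oracle in `NP` in `n ^ c + c` rounds, where in
each round it asks `2 ^ O(n ^ c)` queries in parallel, of length bounded by an arbitrary polynomial.

With one query in each round (and polynomial time) this is the theorem of Buhrman, Fortnow and
Santhanam (2009) that `NEXP` is not contained in `P^NP` with `n ^ c` queries and `n ^ c` bits of
advice; rounds with polynomially many queries reduce to this case. New are the rounds with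
exponentially many queries, that is `n ^ c` adaptive calls to functions like the number, the parity
or the majority of the indices `i` of `n ^ c` bits such that `(q, i)` satisfies an `NP`-predicate, or
any function of these `2 ^ (n ^ c)` truth values computable in time `2 ^ O(n ^ c)`; also algorithms
with `2 ^ O(n ^ c)` adaptive queries at most `n ^ c` of which are answered `yes` (ask in one round all
the queries up to the next answer `yes`).

Proof. Suppose that all languages in `NEXP` are in the class, and let `K` be a universal set for
`NTIME(2^(n^(c+3)))`, decided by a machine `M` with advice `a`. For a length `N` consider the numbers
`C_i` of the answers `yes` in round `i`, summed over all instances of length `N` of a suitable set and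
ALL advice strings. If `C_0, ..., C_(i-1)` are right then certified positive answers to the queries
of round `i` (the query lists follow from the earlier answers), `C_i` in number, are all positive
answers. The list of these numbers has about `N ^ (2 c + 1)` bits and is computable in deterministic
exponential time. Hence the language of its bits, on inputs of length `l = N ^ (1/(2c+4))`, is in
`NEXP`, so it is decided by a machine `M'` of the class; together with the corresponding numbers
for `M'` and the length `l` everything is determined by `l ^ (2c+1)` bits, that is by few bits
compared with `N`. A nondeterministic machine that knows these bits finds in time `2 ^ O(N^(c+1))`
the answers of `M` for all advice strings, and it diagonalizes against all of them. This language is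
in `K` up to a reduction of linear length, and `M` decides it with the advice `a N`: a
contradiction.
-/

namespace Pool.Agent.Results.MP_92db0f_lc.ParallelRounds

open Pool.Agent.H660R2.NX Pool.Agent.H75C.RD

/-- **Theorem.** For every `c` some language in `NEXP` is not decided in time `2 ^ O(n ^ c)` with
`n ^ c + c` bits of advice and `n ^ c + c` rounds of `2 ^ O(n ^ c)` parallel queries of polynomial length
to an oracle in `NP`. -/
theorem result (c : ℕ) : ∃ L : Set (List Bool), InNEXP L ∧ ¬ InRounds c L := main_rounds c

end Pool.Agent.Results.MP_92db0f_lc.ParallelRounds
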