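import Pool.Agent.H75C.SP.Class

/-!
# `NEXP` and polynomial time with an `NP` oracle of subexponential density and few other queries

For every `c` there is a language `L` in `NEXP` that is not in the following class `InPNPSparse c`:
`L` is decided in polynomial time, with `n ^ c + c` bits of advice (depending on the length `n` of the
input only), with polynomially many adaptive queries to a language `A` in `NP` of subexponential
density and at most `n ^ c + c` queries to another language `B` in `NP`. The length of the queries is
bounded by an arbitrary polynomial. Subexponential density (`SubexpDense`) means: for every `k` and
all large `n`, at most `2 ^ n` elements of `A` have length at most `n ^ k`.

Proof. Suppose that all languages in `NEXP` are in the class. Let `K` be a universal set for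
`NTIME(2^(n^(c+3)))`, decided by a machine `M` of the class. For a length `N` consider the numbers:
the number of elements of `A` up to the maximal length of a query, and, for `i = 1, 2, ..., N^c+c`, the
number of pairs (`y`, `b`) of an input `y` of length `N` and ANY advice string `b` of length at most
`N^c+c` for which the `i`-th query to `B` has the answer yes (where the queries are made with the
correct table of `A`). This profile can be computed in deterministic exponential time (the
exponent depends on `M`). So the language of the bits of the profile, with inputs of the much
smaller length `l = N ^ (1/(2c+4))`, is in `NEXP`, and it is decided by a second machine `M'` of the
class; the profile of `M'` for the length `l` and its advice are described by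
`O(l ^ (2 c + 1))` bits. A nondeterministic machine that knows these bits can guess and certify the
table of the first oracle of `M'` and all queries of `M'` with answer yes, so it knows the profile of
`M`; then it can guess and certify the table of `A`, which has at most `2 ^ N` elements, and all
queries of `M` to `B` with answer yes, in time `2 ^ O(N^(c+1))`, whatever the polynomial bounds of `M`
are. So it can compute a string of bits that differs from the answers of `M` for every advice string
`b` and every description of a problem of length about `N / 3`. This language is thus in `K` up to a
reduction of linear length which includes the few bits, and `M` decides it with its advice: a
contradiction.
-/

namespace Pool.Agent.Results.MP_92db0f_lc.SubexpDenseOracle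

open Pool.Agent.H660R2.NX Pool.Agent.H75C.SP

/-- **Theorem.** For every `c` some language in `NEXP` is not decided in polynomial time with
`n ^ c + c` bits of advice, an oracle in `NP` of subexponential density, and `n ^ c + c` queries to
another oracle in `NP`. -/
theorem result (c : ℕ) : ∃ L : Set (List Bool), InNEXP L ∧ ¬ InPNPSparse c L := main_sparse c

end Pool.Agent.Results.MP_92db0f_lc.SubexpDenseOracle
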